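import Pool.Agent.Run7.h745.AH.Iface

/-!
# Pieces AV and PT: limits of point traces
-/

set_option autoImplicit false
set_option linter.unusedSectionVars false

noncomputable section

namespace Run7.h973.AH

open Filter Topology Matrix Pool.Agent.H188R3 Pool.Agent.TH249 Run7.h745 Run7.h745.AH
open scoped ENNReal NNReal ComplexOrder

/-! ### The normalised trace -/

section ntr
variable {I : Type} [Fintype I] [DecidableEq I]

lemma norm_en_le (x : MA I ℂ) (i j : I) : ‖x.en i j‖ ≤ ‖x‖ := by
  let _ : PartialOrder ℂ := CStarAlgebra.spectralOrder ℂ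
  let _ : StarOrderedRing ℂ := CStarAlgebra.spectralOrderedRing ℂ
  exact CStarMatrix.norm_entry_le_norm (A := ℂ) (M := (show CStarMatrix I I ℂ from x)) (i := i)
    (j := j)

lemma ntr_add (x y : MA I ℂ) : ntr (x + y) = ntr x + ntr y := by
  unfold ntr
  rw [← add_div, ← Finset.sum_add_distrib]
  rfl

lemma ntr_sub (x y : MA I ℂ) : ntr (x - y) = ntr x - ntr y := by
  unfold ntr
  rw [← sub_div, ← Finset.sum_sub_distrib]
  rfl

lemma ntr_smul (c : ℂ) (x : MA I ℂ) : ntr (c • x) = c * ntr x := by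
  unfold ntr
  rw [mul_div_assoc', Finset.mul_sum]
  rfl

lemma ntr_one [Nonempty I] : ntr (1 : MA I ℂ) = 1 := by
  unfold ntr
  have h : ∑ i : I, (1 : MA I ℂ).en i i = (Fintype.card I : ℂ) := by
    rw [Finset.sum_congr rfl fun i _ => show (1 : MA I ℂ).en i i = 1 by rw [MA.en_one, if_pos rfl],
      Finset.sum_const, Finset.card_univ, nsmul_eq_mul, mul_one]
  rw [h, div_self]
  exact_mod_cast Fintype.card_ne_zero

lemma ntr_comm (x y : MA I ℂ) : ntr (x * y) = ntr (y * x) := by
  unfold ntr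
  congr 1
  simp only [MA.en_mul]
  rw [Finset.sum_comm]
  exact Finset.sum_congr rfl fun i _ => Finset.sum_congr rfl fun j _ => mul_comm _ _

lemma ntr_norm [Nonempty I] (x : MA I ℂ) : ‖ntr x‖ ≤ ‖x‖ := by
  unfold ntr
  rw [norm_div, Complex.norm_natCast]
  have h0 : (0 : ℝ) < Fintype.card I := by exact_mod_cast Fintype.card_pos
  rw [div_le_iff₀ h0]
  refine (norm_sum_le _ _).trans ?_
  refine (Finset.sum_le_card_nsmul _ _ ‖x‖ fun i _ => norm_en_le x i i).trans ?_
  rw [Finset.card_univ, nsmul_eq_mul, mul_comm]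

lemma ntr_pos (x : MA I ℂ) : 0 ≤ (ntr (star x * x)).re ∧ (ntr (star x * x)).im = 0 := by
  have h : ntr (star x * x) =
      (((∑ i : I, ∑ j : I, ‖x.en j i‖ ^ 2) / (Fintype.card I : ℝ) : ℝ) : ℂ) := by
    unfold ntr
    push_cast
    congr 1
    refine Finset.sum_congr rfl fun i _ => ?_
    rw [MA.en_mul]
    refine Finset.sum_congr rfl fun j _ => ?_
    rw [MA.en_star]
    exact Complex.conj_mul' _
  rw [h]
  exact ⟨by rw [Complex.ofReal_re]; positivity, Complex.ofReal_im _⟩

end ntr

section nt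
variable {s : ℕ → Bool} {n : ℕ}

lemma nt_add (a b : A s n) (t : Fin (n + 1)) (y : X n t) : nt (a + b) t y = nt a t y + nt b t y :=
  ntr_add _ _

lemma nt_sub (a b : A s n) (t : Fin (n + 1)) (y : X n t) : nt (a - b) t y = nt a t y - nt b t y :=
  ntr_sub _ _

lemma nt_smul (c : ℂ) (a : A s n) (t : Fin (n + 1)) (y : X n t) : nt (c • a) t y = c * nt a t y :=
  ntr_smul _ _

lemma nt_one (t : Fin (n + 1)) (y : X n t) : nt (1 : A s n) t y = 1 := ntr_one

lemma nt_comm (a b : A s n) (t : Fin (n + 1)) (y : X n t) : nt (a * b) t y = nt (b * a) t y :=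
  ntr_comm _ _

lemma nt_pos (a : A s n) (t : Fin (n + 1)) (y : X n t) :
    0 ≤ (nt (star a * a) t y).re ∧ (nt (star a * a) t y).im = 0 := ntr_pos _

lemma nt_norm (a : A s n) (t : Fin (n + 1)) (y : X n t) : ‖nt a t y‖ ≤ ‖a‖ :=
  (ntr_norm _).trans (((a t).norm_coe_le_norm y).trans (norm_le_pi_norm a t))

end nt

/-! ### Approximation at all levels -/

section approx
variable {A : ℕ → Type} [∀ n, CStarAlgebra (A n)] [∀ n, Nontrivial (A n)]
  {φ : ∀ n, A n →⋆ₐ[ℂ] A (n + 1)} {L : Type} [CStarAlgebra L] {j : ∀ n, A n →⋆ₐ[ℂ] L}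

lemma exists_seq (h : IsLim φ j) (y : L) :
    ∃ x : ∀ m, A m, Tendsto (fun m => j m (x m)) atTop (𝓝 y) ∧ ∀ m, ‖x m‖ ≤ 2 * ‖y‖ + 1 := by
  have h1 : ∀ m : ℕ, ∃ x : A m, ‖y - j m x‖ < Metric.infDist y (Set.range (j m)) + 1 / ((m : ℝ) + 1) := by
    intro m
    have h2 : Metric.infDist y (Set.range (j m)) <
        Metric.infDist y (Set.range (j m)) + 1 / ((m : ℝ) + 1) := by
      have : (0 : ℝ) < 1 / ((m : ℝ) + 1) := by positivity
      linarith
    obtain ⟨_, ⟨x, rfl⟩, hx⟩ := (Metric.infDist_lt_iff (Set.range_nonempty _)).1 h2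
    exact ⟨x, by rwa [dist_eq_norm] at hx⟩
  choose x hx using h1
  refine ⟨x, ?_, fun m => ?_⟩
  · rw [Metric.tendsto_atTop]
    intro ε hε
    obtain ⟨N, z, hz⟩ := h.dense y (ε / 2) (half_pos hε)
    obtain ⟨M, hM⟩ := exists_nat_one_div_lt (half_pos hε)
    refine ⟨max N M, fun m hm => ?_⟩
    rw [dist_comm, dist_eq_norm]
    have hNm : N ≤ m := (le_max_left _ _).trans hm
    have hMm : M ≤ m := (le_max_right _ _).trans hm
    have h2 : Metric.infDist y (Set.range (j m)) ≤ ‖y - j N z‖ := by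
      rw [← dist_eq_norm, ← comp_trans j h.comp hNm]
      exact Metric.infDist_le_dist_of_mem (Set.mem_range_self _)
    have h3 : 1 / ((m : ℝ) + 1) ≤ 1 / ((M : ℝ) + 1) := by
      have : (M : ℝ) ≤ m := by exact_mod_cast hMm
      exact one_div_le_one_div_of_le (by positivity) (by linarith)
    have h4 := hx m
    linarith
  · have h2 : Metric.infDist y (Set.range (j m)) ≤ ‖y‖ := by
      have h3 : Metric.infDist y (Set.range (j m)) ≤ dist y (j m 0) :=
        Metric.infDist_le_dist_of_mem (Set.mem_range_self _)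
      rwa [map_zero, dist_zero_right] at h3
    have h3 : 1 / ((m : ℝ) + 1) ≤ 1 := by
      rw [div_le_one (by positivity)]
      have : (0 : ℝ) ≤ m := Nat.cast_nonneg m
      linarith
    have h4 := hx m
    rw [← norm_map_inj (j m) (h.inj m)]
    have h5 : j m (x m) = y - (y - j m (x m)) := by abel
    rw [h5]
    refine (norm_sub_le _ _).trans ?_
    linarith

end approx

/-! ### AV -/

theorem t_AV : Run7.h745.AH.S_AV := by
  intro s L _ j h F n t y hn
  -- the functional `g i` on level `n i`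
  have key : ∀ z : L, ∃ l : ℂ, ∀ b : ∀ i, A s (n i), Tendsto (fun i => j (n i) (b i)) F (𝓝 z) →
      Tendsto (fun i => nt (b i) (t i) (y i)) F (𝓝 l) := by
    intro z
    obtain ⟨x, hx, hxb⟩ := exists_seq h z
    have hc : IsCompact (Metric.closedBall (0 : ℂ) (2 * ‖z‖ + 1)) := isCompact_closedBall 0 _
    obtain ⟨l, -, hl⟩ := hc.ultrafilter_le_nhds (F.map fun i => nt (x (n i)) (t i) (y i)) (by
      rw [Filter.le_principal_iff]
      refine Filter.mem_map.mpr (Filter.univ_mem' fun i => ?_)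
      show nt (x (n i)) (t i) (y i) ∈ Metric.closedBall (0 : ℂ) (2 * ‖z‖ + 1)
      rw [mem_closedBall_zero_iff]
      exact (nt_norm _ _ _).trans (hxb _))
    refine ⟨l, fun b hb => ?_⟩
    have h1 : Tendsto (fun i => j (n i) (b i) - j (n i) (x (n i))) F (𝓝 0) := by
      have := hb.sub (hx.comp hn)
      rwa [sub_self] at this
    have h2 : Tendsto (fun i => nt (b i) (t i) (y i) - nt (x (n i)) (t i) (y i)) F (𝓝 0) := by
      refine squeeze_zero_norm (fun i => ?_) (tendsto_zero_iff_norm_tendsto_zero.1 h1)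
      rw [← nt_sub, ← map_sub, norm_map_inj (j (n i)) (h.inj (n i))]
      exact nt_norm _ _ _
    have h3 := h2.add (show Tendsto (fun i => nt (x (n i)) (t i) (y i)) F (𝓝 l) from hl)
    rw [zero_add] at h3
    exact h3.congr fun i => by ring
  choose ℓ hℓ using key
  have hseq : ∀ z : L, ∃ b : ∀ i, A s (n i), Tendsto (fun i => j (n i) (b i)) F (𝓝 z) := by
    intro z
    obtain ⟨x, hx, -⟩ := exists_seq h z
    exact ⟨fun i => x (n i), hx.comp hn⟩
  choose b hb using hseq
  have hadd : ∀ z w, ℓ (z + w) = ℓ z + ℓ w := by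
    intro z w
    refine tendsto_nhds_unique (hℓ (z + w) (fun i => b z i + b w i) ?_) ?_
    · exact ((hb z).add (hb w)).congr fun i => (map_add _ _ _).symm
    · exact ((hℓ z _ (hb z)).add (hℓ w _ (hb w))).congr fun i => (nt_add _ _ _ _).symm
  have hsmul : ∀ (c : ℂ) z, ℓ (c • z) = c * ℓ z := by
    intro c z
    refine tendsto_nhds_unique (hℓ (c • z) (fun i => c • b z i) ?_) ?_
    · exact ((hb z).const_smul c).congr fun i => (map_smul _ _ _).symm
    · exact ((hℓ z _ (hb z)).const_mul c).congr fun i => (nt_smul _ _ _ _).symm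
  refine ⟨{ val := { toFun := ℓ, map_add' := hadd, map_smul' := fun c a => by rw [hsmul]; rfl }
            map_one := ?_
            nonneg := ?_
            comm := ?_ }, fun m a => ?_⟩
  · refine tendsto_nhds_unique (hℓ 1 (fun i => 1) ?_) ?_
    · exact tendsto_const_nhds.congr fun i => (map_one _).symm
    · exact tendsto_const_nhds.congr fun i => (nt_one _ _).symm
  · intro z
    have h1 : Tendsto (fun i => nt (star (b z i) * b z i) (t i) (y i)) F (𝓝 (ℓ (star z * z))) := by
      refine hℓ _ _ ?_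
      exact ((hb z).star.mul (hb z)).congr fun i => by rw [map_mul, map_star]
    constructor
    · have h2 := (Complex.continuous_re.tendsto _).comp h1
      exact ge_of_tendsto h2 (Filter.Eventually.of_forall fun i => (nt_pos _ _ _).1)
    · have h2 := (Complex.continuous_im.tendsto _).comp h1
      refine tendsto_nhds_unique h2 ?_
      exact (tendsto_const_nhds (x := (0 : ℝ))).congr fun i => (nt_pos _ _ _).2.symm
  · intro z w
    have h1 : Tendsto (fun i => nt (b z i * b w i) (t i) (y i)) F (𝓝 (ℓ (z * w))) := by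
      refine hℓ _ _ ?_
      exact ((hb z).mul (hb w)).congr fun i => by rw [map_mul]
    have h2 : Tendsto (fun i => nt (b w i * b z i) (t i) (y i)) F (𝓝 (ℓ (w * z))) := by
      refine hℓ _ _ ?_
      exact ((hb w).mul (hb z)).congr fun i => by rw [map_mul]
    exact tendsto_nhds_unique h1 (h2.congr fun i => nt_comm _ _ _ _)
  · refine hℓ (j m a) _ ?_
    refine tendsto_const_nhds.congr' ?_
    filter_upwards [hn.eventually (eventually_ge_atTop m)] with i hi
    rw [comp_trans j h.comp hi]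

/-! ### PT -/

theorem t_PT : Run7.h745.AH.S_PT := by
  intro hAV s L _ j h m a ρ hρ η hη
  by_contra hc
  push Not at hc
  choose n hn t y hy using hc
  have hF : Tendsto n (Filter.hyperfilter ℕ : Ultrafilter ℕ) atTop := by
    refine (tendsto_atTop_mono (fun k => hn k) tendsto_id).mono_left ?_
    rw [← Nat.cofinite_eq_atTop]
    exact Filter.hyperfilter_le_cofinite
  obtain ⟨τ, hτ⟩ := hAV s L j h (Filter.hyperfilter ℕ) n t y hF
  have h1 := (Complex.continuous_re.tendsto _).comp (hτ m a)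
  have h2 : (τ.val (j m a)).re ≤ ρ - η :=
    le_of_tendsto h1 (Filter.Eventually.of_forall fun k => (hy k).le)
  have := hρ τ
  linarith

end Run7.h973.AH
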