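import Pool.Agent.Run7.h745.AH.Iface

/-!
# Piece SIMPLE: the limits are simple
-/

set_option autoImplicit false
set_option linter.unusedSectionVars false

noncomputable section

namespace Run7.h973.AH

open Filter Topology Matrix Pool.Agent.H188R3 Pool.Agent.TH249 Run7.h745 Run7.h745.AH
open scoped ENNReal NNReal ComplexOrder

/-! ### Matrix units -/

section units
variable {I : Type} [Fintype I] [DecidableEq I]

lemma unit_mul_mul (x : MA I ℂ) (a p p' b : I) :
    MA.unit a p * x * MA.unit p' b = x.en p p' • MA.unit a b := by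
  apply MA.ext
  intro i j
  rw [MA.en_mul, MA.en_smul, MA.en_unit]
  have h1 : ∀ k, (MA.unit a p * x).en i k = if i = a then x.en p k else 0 := by
    intro k
    rw [MA.en_mul]
    rw [Finset.sum_eq_single p]
    · rw [MA.en_unit]
      by_cases h : i = a <;> simp [h]
    · intro c _ hc
      rw [MA.en_unit, if_neg (fun h => hc h.2), zero_mul]
    · intro h; exact absurd (Finset.mem_univ _) h
  rw [Finset.sum_eq_single p']
  · rw [h1, MA.en_unit]
    by_cases h : i = a <;> by_cases h' : j = b <;> simp [h, h']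
  · intro c _ hc
    rw [MA.en_unit, if_neg (fun h => hc h.1), mul_zero]
  · intro h; exact absurd (Finset.mem_univ _) h

end units

/-! ### Constant elements of one component -/

/-- the constant matrix `x` in the component `t` -/
def cs {s : ℕ → Bool} {n : ℕ} (t : Fin (n + 1)) (x : MA (Fin (N s n t)) ℂ) : A s n :=
  Pi.single t (ContinuousMap.const _ x)

lemma cs_same {s : ℕ → Bool} {n : ℕ} (t : Fin (n + 1)) (x : MA (Fin (N s n t)) ℂ) (y : X n t) :
    cs (s := s) t x t y = x := by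
  unfold cs
  rw [Pi.single_eq_same]
  rfl

lemma cs_ne {s : ℕ → Bool} {n : ℕ} (t t' : Fin (n + 1)) (h : t' ≠ t)
    (x : MA (Fin (N s n t)) ℂ) : cs (s := s) t x t' = 0 := by
  unfold cs
  rw [Pi.single_eq_of_ne h]

lemma sum_cs_unit (s : ℕ → Bool) (n : ℕ) :
    ∑ t : Fin (n + 1), ∑ a : Fin (N s n t), cs (s := s) t (MA.unit a a) = 1 := by
  funext t
  ext1 y
  rw [Finset.sum_apply, Finset.sum_eq_single t]
  · rw [Finset.sum_apply, ContinuousMap.sum_apply]
    rw [Finset.sum_congr rfl fun a _ => cs_same (s := s) t (MA.unit a a) y]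
    exact MA.sum_unit
  · intro t' _ ht'
    rw [Finset.sum_apply]
    exact Finset.sum_eq_zero fun a _ => cs_ne t' t ht'.symm _
  · intro h; exact absurd (Finset.mem_univ _) h

/-- an element which has in each component a constant nonzero entry generates everything -/
lemma full_of_entry {s : ℕ → Bool} {n : ℕ} (x : A s n)
    (hx : ∀ t : Fin (n + 1), ∃ (p p' : Fin (N s n t)) (α : ℂ), α ≠ 0 ∧
      ∀ y, (x t y).en p p' = α) (I : TwoSidedIdeal (A s n)) (hI : x ∈ I) : I = ⊤ := by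
  rw [← TwoSidedIdeal.one_mem_iff, ← sum_cs_unit s n]
  refine TwoSidedIdeal.finsetSum_mem _ _ _ fun t _ => TwoSidedIdeal.finsetSum_mem _ _ _ fun a _ => ?_
  obtain ⟨p, p', α, hα, h⟩ := hx t
  have h1 : cs (s := s) t (MA.unit a a) =
      algebraMap ℂ (A s n) α⁻¹ * (cs (s := s) t (MA.unit a p) * x * cs (s := s) t (MA.unit p' a)) := by
    rw [← Algebra.smul_def]
    funext t'
    by_cases ht : t' = t
    · subst ht
      ext1 y
      show cs (s := s) t' (MA.unit a a) t' y = α⁻¹ • (cs (s := s) t' (MA.unit a p) t' y * x t' y *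
        cs (s := s) t' (MA.unit p' a) t' y)
      rw [cs_same, cs_same, cs_same, unit_mul_mul, h y, smul_smul, inv_mul_cancel₀ hα, one_smul]
    · rw [cs_ne t t' ht]
      show 0 = α⁻¹ • (cs (s := s) t (MA.unit a p) t' * x t' * cs (s := s) t (MA.unit p' a) t')
      rw [cs_ne t t' ht, cs_ne t t' ht, zero_mul, zero_mul, smul_zero]
  rw [h1]
  exact I.mul_mem_left _ _ (I.mul_mem_right _ _ (I.mul_mem_left _ _ hI))

/-! ### The blocks of the lifted point -/

/-- the point of level `m` all of whose level `n` blocks are `z` -/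
def lft {n t : ℕ} (z : X n t) (m : ℕ) : X m t := fun a => z ⟨a % f n, Nat.mod_lt _ (f_pos _)⟩

lemma f_dvd {n m : ℕ} (h : n ≤ m) : f n ∣ f m := by
  induction m, h using Nat.le_induction with
  | base => exact dvd_rfl
  | succ m hm ih => exact ih.trans (Dvd.intro_left _ rfl)

lemma lft_self {n t : ℕ} (z : X n t) : lft z n = z := by
  funext a
  unfold lft
  congr 1
  exact Fin.ext (Nat.mod_eq_of_lt a.2)

lemma blk_lft {n t m : ℕ} (h : n ≤ m) (z : X n t) (i : Fin (q m)) :
    blk m t i (lft z (m + 1)) = lft z m := by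
  funext a
  show z ⟨((finProdFinEquiv (i, a) : Fin (q m * f m)) : ℕ) % f n, _⟩ = z ⟨(a : ℕ) % f n, _⟩
  congr 1
  apply Fin.ext
  show ((finProdFinEquiv (i, a) : Fin (q m * f m)) : ℕ) % f n = (a : ℕ) % f n
  rw [finProdFinEquiv_apply_val]
  show ((a : ℕ) + f m * (i : ℕ)) % f n = (a : ℕ) % f n
  obtain ⟨c, hc⟩ := f_dvd h
  have h1 : f m * (i : ℕ) = f n * (c * (i : ℕ)) := by rw [hc, mul_assoc]
  rw [h1, Nat.add_mul_mod_self_left]

/-- an entry of a block is an entry of the image -/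
lemma φ_entry (s : ℕ → Bool) (n : ℕ) (a : A s n) (t' : Fin (n + 2)) (y : X (n + 1) t')
    (σ : Slot s n t') (p p' : Fin (N s n (src s n t' σ))) :
    (φ s n a t' y).en ((pe s n t').symm ⟨σ, p⟩) ((pe s n t').symm ⟨σ, p'⟩) =
      (a (src s n t' σ) (lam s n t' σ y)).en p p' := by
  rw [φ_apply, bd_same]

lemma exists_en_ne {I : Type} [Fintype I] [DecidableEq I] {x : MA I ℂ} (h : x ≠ 0) :
    ∃ p p', x.en p p' ≠ 0 := by
  by_contra hc
  push Not at hc
  exact h (MA.ext fun i j => by rw [hc, MA.en_zero])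

lemma trans_lft_ne (s : ℕ → Bool) {n : ℕ} (x : A s n) (t : ℕ) (ht : t ≤ n) (z : X n t)
    (hx : x (ft ht) z ≠ 0) {m : ℕ} (h : n ≤ m) :
    trans (φ s) n m x (ft (ht.trans h)) (lft z m) ≠ 0 := by
  induction m, h using Nat.le_induction with
  | base => rw [trans_self, lft_self]; exact hx
  | succ m hm ih =>
    rw [trans_succ (φ s) hm]
    obtain ⟨p, p', hp⟩ := exists_en_ne ih
    have h1 := φ_entry s m (trans (φ s) n m x) (ft (ht.trans (hm.trans (Nat.le_succ m))))
      (lft z (m + 1)) (Sum.inl (⟨ht.trans hm⟩, ⟨0, q_pos m⟩)) p p'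
    intro h2
    rw [h2, MA.en_zero] at h1
    apply hp
    rw [h1]
    show _ = (trans (φ s) n m x (ft (ht.trans hm)) (blk m t ⟨0, q_pos m⟩ (lft z (m + 1)))).en p p'
    rw [blk_lft hm]

theorem t_SIMPLE : S_SIMPLE := by
  intro s L _ j h
  have : Nontrivial L := (h.inj 0).nontrivial
  refine h.simple fun n x hx => ?_
  -- a component and a point where `x` does not vanish
  obtain ⟨t, ht⟩ : ∃ t, x t ≠ 0 := by
    by_contra hc
    push Not at hc
    exact hx (funext hc)
  obtain ⟨y₀, hy₀⟩ : ∃ y, x t y ≠ 0 := by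
    by_contra hc
    push Not at hc
    exact ht (ContinuousMap.ext hc)
  have hU : IsOpen {y | x t y ≠ 0} := isOpen_ne_fun (x t).continuous continuous_const
  obtain ⟨i, hi⟩ := (TopologicalSpace.denseRange_denseSeq (X n t)).exists_mem_open hU ⟨y₀, hy₀⟩
  obtain ⟨z, hz⟩ : ∃ z, z = TopologicalSpace.denseSeq (X n t) i := ⟨_, rfl⟩
  have hi' : x (ft (Nat.le_of_lt_succ t.2)) z ≠ 0 := by rw [hz]; exact hi
  obtain ⟨m, hm⟩ : ∃ m, m = max n i := ⟨_, rfl⟩
  have hnm : n ≤ m := hm ▸ le_max_left _ _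
  have him : i ≤ m := hm ▸ le_max_right _ _
  have htn : (t : ℕ) ≤ n := Nat.le_of_lt_succ t.2
  have h1 := trans_lft_ne s x t htn z hi' hnm
  obtain ⟨p, p', hp⟩ := exists_en_ne h1
  refine ⟨m + 1, hnm.trans (Nat.le_succ m), fun I hI => ?_⟩
  rw [trans_succ (φ s) hnm] at hI
  refine full_of_entry _ (fun t' => ?_) I hI
  let c : Cn m := (⟨n, Nat.lt_succ_of_le hnm⟩, ⟨i, Nat.lt_succ_of_le him⟩,
    ⟨t, Nat.lt_succ_of_le (htn.trans hnm)⟩)
  let σ : Slot s m t' := Sum.inr (Sum.inr ⟨c, ⟨0, Nat.mul_pos (amp_pos _ _) (co_pos _ _)⟩⟩)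
  refine ⟨(pe s m t').symm ⟨σ, p⟩, (pe s m t').symm ⟨σ, p'⟩,
    (trans (φ s) n m x (ft (htn.trans hnm)) (lft z m)).en p p', hp, fun y => ?_⟩
  rw [φ_entry s m (trans (φ s) n m x) t' y σ p p', hz]
  rfl

end Run7.h973.AH
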